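import Mathlib

/-!
# Values of polynomials on discs: the nearest root and the generic point
-/

set_option autoImplicit false

namespace K3

open Polynomial

section

variable {L : Type*} [Field L] {Γ : Type*} [LinearOrderedCommGroupWithZero Γ] (v : Valuation L Γ)

/-- `m` is the maximum of the values of the Taylor terms of `p` at `rho` on the circle of radius
`r`. -/
def IsGauss (p : L[X]) (rho : L) (r m : Γ) : Prop :=
  (∀ k, v ((taylor rho p).coeff k) * r ^ k ≤ m) ∧ ∃ k, v ((taylor rho p).coeff k) * r ^ k = m

variable {v}

theorem IsGauss.unique {p : L[X]} {rho : L} {r m m' : Γ} (h : IsGauss v p rho r m)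
    (h' : IsGauss v p rho r m') : m = m' := by
  obtain ⟨k, hk⟩ := h.2
  obtain ⟨k', hk'⟩ := h'.2
  exact le_antisymm (hk ▸ h'.1 k) (hk' ▸ h.1 k')

/-- The Gauss value depends only on the values of the Taylor coefficients. -/
theorem IsGauss.congr {L' : Type*} [Field L'] {v' : Valuation L' Γ} {p : L[X]} {p' : L'[X]}
    {rho : L} {rho' : L'} {r m m' : Γ}
    (hc : ∀ k, v ((taylor rho p).coeff k) = v' ((taylor rho' p').coeff k))
    (h : IsGauss v p rho r m) (h' : IsGauss v' p' rho' r m') : m = m' := by
  obtain ⟨k, hk⟩ := h.2
  obtain ⟨k', hk'⟩ := h'.2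
  refine le_antisymm ?_ ?_
  · rw [← hk, hc k]; exact h'.1 k
  · rw [← hk', ← hc k']; exact h.1 k'

/-- If all the Taylor terms are at most the value at `z`, the value at `z` is the maximum. -/
theorem isGauss_of_le {p : L[X]} {rho z : L}
    (h : ∀ k, v ((taylor rho p).coeff k) * v (z - rho) ^ k ≤ v (p.eval z)) :
    IsGauss v p rho (v (z - rho)) (v (p.eval z)) := by
  refine ⟨h, ?_⟩
  by_contra hc
  push Not at hc
  have hlt : ∀ k, v ((taylor rho p).coeff k) * v (z - rho) ^ k < v (p.eval z) := fun k =>
    lt_of_le_of_ne (h k) (hc k)
  have h0 : p.eval z = ∑ k ∈ Finset.range ((taylor rho p).natDegree + 1),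
      (taylor rho p).coeff k * (z - rho) ^ k := by
    rw [← eval_eq_sum_range, taylor_eval, sub_add_cancel]
  have h1 : v (p.eval z) < v (p.eval z) := by
    conv_lhs => rw [h0]
    refine Valuation.map_sum_lt v ?_ ?_
    · intro he
      have := hlt 0
      rw [he] at this
      exact absurd this not_lt_zero
    · intro k _
      rw [map_mul, map_pow]
      exact hlt k
  exact lt_irrefl _ h1

/-- The nearest root, product form. -/
theorem isGauss_of_prod (c : L) (s : Multiset L) (rho z : L)
    (hs : ∀ t ∈ s, v (z - rho) ≤ v (z - t)) :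
    IsGauss v (C c * (s.map fun t => X - C t).prod) rho (v (z - rho))
      (v ((C c * (s.map fun t => X - C t).prod).eval z)) := by
  apply isGauss_of_le
  induction s using Multiset.induction_on with
  | empty =>
    intro k
    simp only [Multiset.map_zero, Multiset.prod_zero, mul_one, taylor_C, eval_C, coeff_C]
    split_ifs with hk
    · rw [hk, pow_zero, mul_one]
    · rw [map_zero, zero_mul]
      exact zero_le
  | cons t s ih =>
    have ih' := ih fun t' ht' => hs t' (Multiset.mem_cons_of_mem ht')
    have hzt : v (z - rho) ≤ v (z - t) := hs t (Multiset.mem_cons_self t s)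
    have htr : v (rho - t) ≤ v (z - t) := by
      have : rho - t = (z - t) - (z - rho) := by ring
      rw [this]
      exact (Valuation.map_sub v _ _).trans (max_le le_rfl hzt)
    set q := C c * (s.map fun t => X - C t).prod with hq
    have hp : C c * ((t ::ₘ s).map fun t => X - C t).prod = q * (X - C t) := by
      rw [Multiset.map_cons, Multiset.prod_cons, hq]
      ring
    intro k
    have he : v ((q * (X - C t)).eval z) = v (q.eval z) * v (z - t) := by
      rw [eval_mul, map_mul, eval_sub, eval_X, eval_C]
    rw [hp, he]
    have hT : taylor rho (q * (X - C t)) = taylor rho q * X + taylor rho q * C (rho - t) := by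
      rw [taylor_mul]
      simp only [map_sub, taylor_X, taylor_C]
      ring
    rw [hT, coeff_add, coeff_mul_C]
    cases k with
    | zero =>
      rw [coeff_mul_X_zero, zero_add, map_mul, pow_zero, mul_one]
      have := ih' 0
      rw [pow_zero, mul_one] at this
      exact mul_le_mul' this htr
    | succ k =>
      rw [coeff_mul_X]
      have h1 : v ((taylor rho q).coeff k) * v (z - rho) ^ (k + 1) ≤
          v (q.eval z) * v (z - t) := by
        rw [pow_succ, ← mul_assoc]
        exact mul_le_mul' (ih' k) hzt
      have h2 : v ((taylor rho q).coeff (k + 1) * (rho - t)) * v (z - rho) ^ (k + 1) ≤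
          v (q.eval z) * v (z - t) := by
        rw [map_mul, mul_right_comm]
        exact mul_le_mul' (ih' (k + 1)) htr
      have h3 := Valuation.map_add v ((taylor rho q).coeff k)
        ((taylor rho q).coeff (k + 1) * (rho - t))
      rcases le_max_iff.1 h3 with h3 | h3
      · exact (mul_le_mul_left h3 _).trans h1
      · exact (mul_le_mul_left h3 _).trans h2

/-- The nearest root: if `rho` is at least as near to `z` as all the roots of `p`, then `v (p z)`
is the maximum of the Taylor terms at `rho`. -/
theorem isGauss_nearest [IsAlgClosed L] (p : L[X]) (rho z : L)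
    (hs : ∀ t ∈ p.roots, v (z - rho) ≤ v (z - t)) :
    IsGauss v p rho (v (z - rho)) (v (p.eval z)) := by
  have hp : p = C p.leadingCoeff * (p.roots.map fun t => X - C t).prod :=
    (IsAlgClosed.splits p).eq_prod_roots
  rw [hp]
  exact isGauss_of_prod p.leadingCoeff p.roots rho z hs

variable {F : Type*} [Field F] [Algebra F L]

/-- Small values at more than `natDegree` constants: all coefficients are small. -/
theorem coeff_lt_of_eval_lt (hF : ∀ c : F, c ≠ 0 → v (algebraMap F L c) = 1) (m : Γ) :
    ∀ (n : ℕ) (a : L[X]), a.natDegree ≤ n → ∀ s : Finset F, n < s.card →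
      (∀ c ∈ s, v (a.eval (algebraMap F L c)) < m) → ∀ k, v (a.coeff k) < m := by
  intro n
  induction n with
  | zero =>
    intro a ha s hs h k
    obtain ⟨c, hc⟩ := Finset.card_pos.1 hs
    have h1 := h c hc
    rw [natDegree_le_iff_coeff_eq_zero] at ha
    have ha0 : a = C (a.coeff 0) := eq_C_of_natDegree_le_zero (natDegree_le_iff_coeff_eq_zero.2 ha)
    rw [ha0, eval_C] at h1
    cases k with
    | zero => exact h1
    | succ k =>
      rw [ha (k + 1) (Nat.succ_pos k), map_zero]
      exact lt_of_le_of_lt zero_le h1
  | succ n ih =>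
    intro a ha s hs h
    obtain ⟨c, hc⟩ := Finset.card_pos.1 (by omega : 0 < s.card)
    classical
    set x := algebraMap F L c with hx
    set b := a /ₘ (X - C x) with hb
    have hab : a = (X - C x) * b + C (a.eval x) := by
      have := modByMonic_add_div a (X - C x)
      rw [modByMonic_X_sub_C_eq_C_eval] at this
      rw [← this, add_comm]
      simp [hb]
    have hbd : b.natDegree ≤ n := by
      rw [hb, natDegree_divByMonic a (monic_X_sub_C x), natDegree_X_sub_C]
      omega
    have hxle : v x ≤ 1 := by
      by_cases h0 : c = 0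
      · rw [hx, h0, map_zero, map_zero]
        exact zero_le
      · rw [hF c h0]
    have key : ∀ k, v (b.coeff k) < m := by
      refine ih b hbd (s.erase c) (by rw [Finset.card_erase_of_mem hc]; omega) ?_
      intro c' hc'
      obtain ⟨hne, hc's⟩ := Finset.mem_erase.1 hc'
      set y := algebraMap F L c'
      have h1 : a.eval y - a.eval x = (y - x) * b.eval y := by
        conv_lhs => rw [hab]
        simp
      have h2 : v (y - x) = 1 := by
        have := hF (c' - c) (sub_ne_zero.2 hne)
        rwa [map_sub] at this
      have h3 : v (b.eval y) = v (a.eval y - a.eval x) := by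
        rw [h1, map_mul, h2, one_mul]
      rw [h3]
      exact lt_of_le_of_lt (Valuation.map_sub v _ _) (max_lt (h c' hc's) (h c hc))
    intro k
    have hak : a.coeff k = ((X - C x) * b).coeff k + (C (a.eval x)).coeff k := by
      conv_lhs => rw [hab]
      rw [coeff_add]
    rw [hak]
    refine lt_of_le_of_lt (Valuation.map_add v _ _) (max_lt ?_ ?_)
    · rw [sub_mul, coeff_sub, coeff_C_mul]
      refine lt_of_le_of_lt (Valuation.map_sub v _ _) (max_lt ?_ ?_)
      · cases k with
        | zero =>
          rw [coeff_X_mul_zero, map_zero]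
          exact lt_of_le_of_lt zero_le (key 0)
        | succ k =>
          rw [coeff_X_mul]
          exact key k
      · rw [map_mul]
        exact lt_of_le_of_lt (mul_le_of_le_one_left' hxle) (key k)
    · rw [coeff_C]
      split_ifs
      · exact h c hc
      · rw [map_zero]
        exact lt_of_le_of_lt zero_le (key 0)

/-- The generic point of a circle: for all but finitely many constants `c` the value of `p` at
`rho + c * delta` is the maximum of the Taylor terms. -/
theorem isGauss_generic (hF : ∀ c : F, c ≠ 0 → v (algebraMap F L c) = 1) (p : L[X])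
    (rho delta : L) : {c : F | ¬ IsGauss v p rho (v delta)
      (v (p.eval (rho + algebraMap F L c * delta)))}.Finite := by
  set a : L[X] := (taylor rho p).comp (C delta * X) with ha
  have hcoef : ∀ k, a.coeff k = (taylor rho p).coeff k * delta ^ k := fun k => by
    rw [ha, comp_C_mul_X_coeff]
  have heval : ∀ c : F, a.eval (algebraMap F L c) = p.eval (rho + algebraMap F L c * delta) := by
    intro c
    rw [ha, eval_comp, taylor_eval, eval_mul, eval_C, eval_X]
    congr 1
    ring
  -- the maximum
  obtain ⟨j, hj⟩ : ∃ j, ∀ k, v (a.coeff k) ≤ v (a.coeff j) := by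
    obtain ⟨j, -, hj⟩ := Finset.exists_max_image (Finset.range (a.natDegree + 1))
      (fun k => v (a.coeff k)) ⟨0, by simp⟩
    refine ⟨j, fun k => ?_⟩
    by_cases hk : k ≤ a.natDegree
    · exact hj k (by simp; omega)
    · rw [coeff_eq_zero_of_natDegree_lt (by omega), map_zero]
      exact zero_le
  refine Set.Finite.subset (s := {c : F | v (a.eval (algebraMap F L c)) < v (a.coeff j)}) ?_ ?_
  · by_contra hinf
    obtain ⟨s, hs, hcard⟩ := Set.Infinite.exists_subset_card_eq hinf (a.natDegree + 1)
    exact lt_irrefl _ (coeff_lt_of_eval_lt hF (v (a.coeff j)) a.natDegree a le_rfl s (by omega)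
      (fun c hc => hs hc) j)
  · intro c hc
    by_contra hc'
    apply hc
    rw [Set.mem_ofPred_eq, not_lt] at hc'
    have hle : v (a.eval (algebraMap F L c)) ≤ v (a.coeff j) := by
      rw [eval_eq_sum_range]
      refine Valuation.map_sum_le v ?_
      intro k _
      rw [map_mul, map_pow]
      have : v (algebraMap F L c) ≤ 1 := by
        by_cases h0 : c = 0
        · rw [h0, map_zero, map_zero]
          exact zero_le
        · rw [hF c h0]
      exact (mul_le_of_le_one_right' (pow_le_one' this k)).trans (hj k)
    have heq := le_antisymm hle hc'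
    rw [heval] at heq
    refine ⟨fun k => ?_, j, ?_⟩
    · rw [heq, ← map_pow, ← map_mul, ← hcoef]
      exact hj k
    · rw [heq, ← map_pow, ← map_mul, ← hcoef]

/-- The same for finitely many polynomials. -/
theorem exists_generic [Infinite F] (hF : ∀ c : F, c ≠ 0 → v (algebraMap F L c) = 1)
    {ι : Type*} (S : Finset ι) (p : ι → L[X]) (rho delta : L) :
    ∃ c : F, ∀ i ∈ S, IsGauss v (p i) rho (v delta)
      (v ((p i).eval (rho + algebraMap F L c * delta))) := by
  have h : (⋃ i ∈ S, {c : F | ¬ IsGauss v (p i) rho (v delta)
      (v ((p i).eval (rho + algebraMap F L c * delta)))}).Finite :=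
    Set.Finite.biUnion S.finite_toSet fun i _ => isGauss_generic hF (p i) rho delta
  obtain ⟨c, hc⟩ := h.exists_notMem
  refine ⟨c, fun i hi => ?_⟩
  by_contra hn
  exact hc (Set.mem_biUnion hi hn)

end

end K3
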