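import Mathlib

/-!
# Sums of three products of forms of low degree: definitions
-/

set_option autoImplicit false

namespace K3

open Polynomial

section defs

variable {F : Type*} [Field F] {σ : Type*}

/-- `a(x + X u)`. -/
noncomputable def sh (u : σ → F) : MvPolynomial σ F →ₐ[F] (MvPolynomial σ F)[X] :=
  MvPolynomial.aeval fun i => C (MvPolynomial.X i) + X * C (MvPolynomial.C (u i))

/-- `a(p + X u)`, for a point `p` over a field `k` that contains `F`. -/
noncomputable def arc {k : Type*} [Field k] [Algebra F k] (p : σ → k) (u : σ → F) :
    MvPolynomial σ F →ₐ[F] k[X] :=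
  MvPolynomial.aeval fun i => C (p i) + X * C (algebraMap F k (u i))

end defs

/-- `Res_w (B(w), t - Q(w))`, a polynomial in `t`, with formal degrees `e`, `m` in `w`. -/
noncomputable def chi {R : Type*} [CommRing R] (B Q : R[X]) (e m : ℕ) : R[X] :=
  resultant (B.map C) (C X - Q.map C) e m

end K3
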