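import Pool.Agent.Lib.MP_64d474_lc.K3.Defs

/-!
# Sums of three products of forms of low degree: good planes
-/

set_option autoImplicit false

namespace K3

open Polynomial

/-- The top form of `g`. -/
noncomputable def top {F : Type*} [Field F] {σ : Type*} (g : MvPolynomial σ F) :
    MvPolynomial σ F :=
  MvPolynomial.homogeneousComponent g.totalDegree g

/-- The point `u2 + α u1`. -/
def pt {F : Type*} [Field F] {σ : Type*} (u1 u2 : σ → F) (α : F) : σ → F :=
  fun i => u2 i + α * u1 i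

/-- The plane spanned by `u0`, `u1`, `u2` is good for the finite set `BB` of forms of degree at
most `d`. -/
def Good {F : Type*} [Field F] {σ : Type*} (d : ℕ) (BB : Finset (MvPolynomial σ F))
    (u0 u1 u2 : σ → F) : Prop :=
  (∀ B ∈ BB, MvPolynomial.eval u0 B ≠ 0) ∧
  (∀ B ∈ BB, ∀ P ∈ BB, B ≠ P →
    MvPolynomial.eval u2 (resultant (sh u0 B) (sh u0 P)) ≠ 0) ∧
  ∀ g : MvPolynomial σ F, Irreducible g →
    (∃ B ∈ BB, ∃ P ∈ BB, B ≠ P ∧ g ∣ resultant (sh u0 B) (sh u0 P)) →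
    MvPolynomial.eval u1 (top g) ≠ 0 ∧
    ∀ α : F, MvPolynomial.eval (pt u1 u2 α) g = 0 →
      MvPolynomial.eval (pt u1 u2 α) ((sh u1 g).coeff 1) ≠ 0 ∧
      ∀ B ∈ BB, ∀ (P : Fin B.totalDegree → MvPolynomial σ F) (c : Fin B.totalDegree → ℕ),
        (∀ i, P i ∈ BB) → (∀ i, c i ≤ B.totalDegree) → ∀ (j m : ℕ) (a : MvPolynomial σ F),
        (chi (sh u0 B) (sh u0 (∏ i, P i ^ c i)) B.totalDegree (B.totalDegree ^ 2 * d)).coeff j =
          g ^ m * a → ¬ g ∣ a → MvPolynomial.eval (pt u1 u2 α) a ≠ 0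

end K3
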