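import Pool.Agent.Lib.MP_64d474_lc.K3.Defs

/-!
# Degrees of resultants along a direction
-/

set_option autoImplicit false

namespace K3

open Polynomial

/-- Resultants and a multiplicative filtration. -/
theorem resultant_filt {R : Type*} [CommRing R] (P : ℕ → AddSubgroup R)
    (h1 : (1 : R) ∈ P 0) (hmul : ∀ (a b : ℕ) (x y : R), x ∈ P a → y ∈ P b → x * y ∈ P (a + b))
    (f g : R[X]) (a b m n : ℕ) (hf : ∀ i, f.coeff i ∈ P a) (hg : ∀ i, g.coeff i ∈ P b) :
    resultant f g m n ∈ P (m * b + n * a) := by
  have hprod : ∀ (ι : Type) (s : Finset ι) (x : ι → R) (c : ℕ), (∀ i ∈ s, x i ∈ P c) →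
      ∏ i ∈ s, x i ∈ P (s.card * c) := by
    intro ι s x c
    classical
    induction s using Finset.induction_on with
    | empty => intro _; simpa using h1
    | insert i s hi ih =>
      intro h
      rw [Finset.prod_insert hi, Finset.card_insert_of_notMem hi, add_mul, one_mul, add_comm]
      exact hmul _ _ _ _ (h i (Finset.mem_insert_self _ _))
        (ih fun j hj => h j (Finset.mem_insert_of_mem hj))
  rw [resultant, Matrix.det_apply]
  refine AddSubgroup.sum_mem _ fun τ _ => ?_
  have key : ∏ i, sylvester f g m n (τ i) i ∈ P (m * b + n * a) := by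
    rw [Fin.prod_univ_add]
    refine hmul _ _ _ _ ?_ ?_
    · have := hprod (Fin m) Finset.univ
        (fun i => sylvester f g m n (τ (Fin.castAdd n i)) (Fin.castAdd n i)) b (by
          intro i _
          simp only [sylvester, Matrix.of_apply, Fin.addCases_left]
          split_ifs
          · exact hg _
          · exact AddSubgroup.zero_mem _)
      simpa using this
    · have := hprod (Fin n) Finset.univ
        (fun i => sylvester f g m n (τ (Fin.natAdd m i)) (Fin.natAdd m i)) a (by
          intro i _
          simp only [sylvester, Matrix.of_apply, Fin.addCases_right]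
          split_ifs
          · exact hf _
          · exact AddSubgroup.zero_mem _)
      simpa using this
  rcases Int.units_eq_one_or (Equiv.Perm.sign τ) with h | h
  · rw [h]; simpa using key
  · rw [h]; simpa using key

section A

variable {F : Type*} [Field F] {σ : Type*}

/-- Polynomials of total degree at most `d`. -/
def filtA (F : Type*) [Field F] (σ : Type*) (d : ℕ) : AddSubgroup (MvPolynomial σ F) where
  carrier := {x | x.totalDegree ≤ d}
  zero_mem' := by simp
  add_mem' := by
    intro x y hx hy
    exact (MvPolynomial.totalDegree_add x y).trans (max_le hx hy)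
  neg_mem' := by
    intro x hx
    simpa [MvPolynomial.totalDegree_neg] using hx

theorem mem_filtA {d : ℕ} {x : MvPolynomial σ F} : x ∈ filtA F σ d ↔ x.totalDegree ≤ d := Iff.rfl

/-- Polynomials in `t` all of whose coefficients have total degree at most `d`. -/
def filtT (F : Type*) [Field F] (σ : Type*) (d : ℕ) : AddSubgroup (MvPolynomial σ F)[X] where
  carrier := {x | ∀ j, (x.coeff j).totalDegree ≤ d}
  zero_mem' := by simp
  add_mem' := by
    intro x y hx hy j
    rw [coeff_add]
    exact (MvPolynomial.totalDegree_add _ _).trans (max_le (hx j) (hy j))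
  neg_mem' := by
    intro x hx j
    rw [coeff_neg, MvPolynomial.totalDegree_neg]
    exact hx j

theorem mem_filtT {d : ℕ} {x : (MvPolynomial σ F)[X]} :
    x ∈ filtT F σ d ↔ ∀ j, (x.coeff j).totalDegree ≤ d := Iff.rfl

/-- The coefficients of `a(x + X u)` have degree at most that of `a`. -/
theorem sh_coeff_le82 (u : σ → F) (a : MvPolynomial σ F) (j : ℕ) :
    ((sh u a).coeff j).totalDegree ≤ a.totalDegree := by
  have hmul : ∀ (a b : ℕ) (x y : (MvPolynomial σ F)[X]), x ∈ filtT F σ a → y ∈ filtT F σ b →
      x * y ∈ filtT F σ (a + b) := by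
    intro a b x y hx hy j
    rw [coeff_mul]
    refine (MvPolynomial.totalDegree_finsetSum _ _).trans (Finset.sup_le fun p _ => ?_)
    exact (MvPolynomial.totalDegree_mul _ _).trans (add_le_add (hx _) (hy _))
  have hmono : ∀ (a b : ℕ) (x : (MvPolynomial σ F)[X]), a ≤ b → x ∈ filtT F σ a →
      x ∈ filtT F σ b := fun a b x hab hx j => (hx j).trans hab
  have hpow : ∀ (i : σ) (k : ℕ),
      (C (MvPolynomial.X i) + X * C (MvPolynomial.C (u i)) : (MvPolynomial σ F)[X]) ^ k ∈
        filtT F σ k := by
    intro i k
    induction k with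
    | zero =>
      intro j
      rw [pow_zero, coeff_one]
      split_ifs <;> simp
    | succ k ih =>
      rw [pow_succ]
      refine hmul _ _ _ _ ih ?_
      intro j
      rw [coeff_add, coeff_mul_C]
      refine (MvPolynomial.totalDegree_add _ _).trans (max_le ?_ ?_)
      · rw [coeff_C]
        split_ifs
        · simp
        · simp
      · refine (MvPolynomial.totalDegree_mul _ _).trans ?_
        rw [MvPolynomial.totalDegree_C, add_zero, coeff_X]
        split_ifs <;> simp
  have key : sh u a ∈ filtT F σ a.totalDegree := by
    have : sh u a = ∑ d ∈ a.support, C (MvPolynomial.C (a.coeff d)) *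
        ∏ i ∈ d.support, (C (MvPolynomial.X i) + X * C (MvPolynomial.C (u i))) ^ d i := by
      rw [sh, MvPolynomial.aeval_def, MvPolynomial.eval₂_eq]
      rfl
    rw [this]
    refine AddSubgroup.sum_mem _ fun d hd => ?_
    have hle : ∑ i ∈ d.support, d i ≤ a.totalDegree := MvPolynomial.le_totalDegree hd
    refine hmono _ _ _ hle ?_
    have hpr : ∀ s : Finset σ,
        ∏ i ∈ s, (C (MvPolynomial.X i) + X * C (MvPolynomial.C (u i)) :
          (MvPolynomial σ F)[X]) ^ d i ∈ filtT F σ (∑ i ∈ s, d i) := by
      intro s
      classical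
      induction s using Finset.induction_on with
      | empty =>
        intro j
        rw [Finset.prod_empty, coeff_one]
        split_ifs <;> simp
      | insert i s hi ih =>
        rw [Finset.prod_insert hi, Finset.sum_insert hi]
        exact hmul _ _ _ _ (hpow i _) ih
    have := hmul 0 _ (C (MvPolynomial.C (a.coeff d))) _ (by
      intro j
      rw [coeff_C]
      split_ifs <;> simp) (hpr d.support)
    rwa [zero_add] at this
  exact key j

theorem res_totalDegree (u : σ → F) (B T : MvPolynomial σ F) (a b m n : ℕ)
    (hB : B.totalDegree ≤ a) (hT : T.totalDegree ≤ b) (hm : m ≤ a) (hn : n ≤ b) :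
    (resultant (sh u B) (sh u T) m n).totalDegree ≤ 2 * a * b := by
  have h := resultant_filt (filtA F σ) (by simp [mem_filtA])
    (by
      intro a b x y hx hy
      exact (MvPolynomial.totalDegree_mul x y).trans (add_le_add hx hy))
    (sh u B) (sh u T) a b m n
    (fun i => (sh_coeff_le82 u B i).trans hB) (fun i => (sh_coeff_le82 u T i).trans hT)
  refine le_trans (mem_filtA.1 h) ?_
  nlinarith [Nat.mul_le_mul_right b hm, Nat.mul_le_mul_right a hn]

theorem chi_totalDegree (u : σ → F) (B Q : MvPolynomial σ F) (a b m n : ℕ)
    (hB : B.totalDegree ≤ a) (hT : Q.totalDegree ≤ b) (hm : m ≤ a) (hn : n ≤ b) (j : ℕ) :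
    ((chi (sh u B) (sh u Q) m n).coeff j).totalDegree ≤ 2 * a * b := by
  have h := resultant_filt (filtT F σ)
    (by
      intro j
      rw [coeff_one]
      split_ifs <;> simp)
    (by
      intro a b x y hx hy j
      rw [coeff_mul]
      refine (MvPolynomial.totalDegree_finsetSum _ _).trans (Finset.sup_le fun p _ => ?_)
      exact (MvPolynomial.totalDegree_mul _ _).trans (add_le_add (hx _) (hy _)))
    ((sh u B).map C) (C X - (sh u Q).map C) a b m n
    (by
      intro i j
      rw [coeff_map, coeff_C]
      split_ifs
      · exact (sh_coeff_le82 u B i).trans hB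
      · simp)
    (by
      intro i
      rw [coeff_sub]
      refine AddSubgroup.sub_mem _ ?_ ?_
      · intro j
        rw [coeff_C]
        split_ifs
        · rw [coeff_X]
          split_ifs <;> simp
        · simp
      · intro j
        rw [coeff_map, coeff_C]
        split_ifs
        · exact (sh_coeff_le82 u Q i).trans hT
        · simp)
  refine le_trans (mem_filtT.1 h j) ?_
  nlinarith [Nat.mul_le_mul_right b hm, Nat.mul_le_mul_right a hn]

/-- Evaluation of `a(x + X u)` at `x = u2`, `X = α`. -/
theorem eval_sh82 (u u2 : σ → F) (a : MvPolynomial σ F) (α : F) :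
    ((sh u a).map (MvPolynomial.eval u2)).eval α =
      MvPolynomial.eval (fun i => u2 i + α * u i) a := by
  rw [sh, MvPolynomial.aeval_def]
  have h1 : ∀ p : MvPolynomial σ F,
      ((MvPolynomial.eval₂ (algebraMap F (MvPolynomial σ F)[X])
        (fun i => C (MvPolynomial.X i) + X * C (MvPolynomial.C (u i))) p).map
          (MvPolynomial.eval u2)).eval α = MvPolynomial.eval (fun i => u2 i + α * u i) p := by
    intro p
    induction p using MvPolynomial.induction_on with
    | C c =>
      rw [MvPolynomial.eval₂_C, MvPolynomial.eval_C, Polynomial.algebraMap_apply, map_C, eval_C,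
        MvPolynomial.algebraMap_eq, MvPolynomial.eval_C]
    | add p q hp hq =>
      rw [MvPolynomial.eval₂_add, Polynomial.map_add, Polynomial.eval_add, hp, hq, map_add]
    | mul_X p i hp =>
      rw [MvPolynomial.eval₂_mul, MvPolynomial.eval₂_X, Polynomial.map_mul, Polynomial.eval_mul,
        hp, map_mul, MvPolynomial.eval_X, Polynomial.map_add, Polynomial.map_mul, map_C, map_C,
        map_X, Polynomial.eval_add, Polynomial.eval_mul, eval_C, eval_C, eval_X,
        MvPolynomial.eval_X, MvPolynomial.eval_C]
  exact h1 a

/-- No common zero on the line, from the resultant. -/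
theorem ne_zero_of_res (u u2 : σ → F) (g a : MvPolynomial σ F)
    (hres : MvPolynomial.eval u2 (resultant (sh u g) (sh u a)) ≠ 0) (α : F)
    (hd : 0 < (sh u g).natDegree)
    (hg : MvPolynomial.eval (fun i => u2 i + α * u i) g = 0) :
    MvPolynomial.eval (fun i => u2 i + α * u i) a ≠ 0 := by
  intro ha
  obtain ⟨p, q, -, -, h⟩ := exists_mul_add_mul_eq_C_resultant (sh u g) (sh u a) le_rfl le_rfl
    (Or.inl hd.ne')
  apply hres
  have h2 := congrArg (fun r => (r.map (MvPolynomial.eval u2)).eval α) h
  simp only [Polynomial.map_add, Polynomial.map_mul, Polynomial.eval_add, Polynomial.eval_mul,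
    map_C, eval_C, eval_sh82] at h2
  rw [hg, ha] at h2
  rw [← h2]
  ring

end A

end K3
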